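import Pool.Agent.H496Z.RainsTr

open Pool.Agent.H496Z.Rains

/-- A non-chiral, anomaly-free, asymptotically free USp(6) gauge theory, all of whose matter
weights are nonzero integer vectors (so there are no gauge singlets), whose Rains function takes a
negative value while `Tr R` is negative. -/
theorem Pool.Agent.Results.MP_321bb7_mp.ACounterexample.result :
    ∃ (n : ℕ) (D : Fin n → Multiplet),
      QuadAnomaly D ∧ CubicAnomaly D ∧ NonChiral D ∧ AsymptoticallyFree D ∧
      (∀ j, ∀ ρ ∈ (D j).weights, ρ ≠ 0 ∧ ∀ l, ∃ m : ℤ, ρ l = m) ∧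
      (∃ x : Fin 3 → ℝ, rains D x < 0) ∧ trR D < 0 :=
  ⟨4, D2, quad2, cubic2, nonchiral2, af2, weights2, ⟨_, neg_at2⟩, trR2⟩
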